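import Pool.Agent.EVF.StmtsF

/-! # EVF, row COF: the coefficients in one variable -/

set_option autoImplicit false

namespace Pool.Agent.EVF.H75

open MvPolynomial
open Pool.Agent.EVF

theorem coeff_coefl {k : ℕ} (l : Fin k) (j : ℕ) (ψ : MvPolynomial (Fin k) ℤ)
    (a : Fin k →₀ ℕ) :
    coeff a (coefl l j ψ) = if a l = 0 then coeff (a + Finsupp.single l j) ψ else 0 := by
  classical
  unfold coefl
  rw [coeff_sum]
  simp_rw [coeff_monomial]
  by_cases h : a l = 0
  · rw [if_pos h]
    have key : ∀ b : Fin k →₀ ℕ, b l = j → b.erase l = a → b = a + Finsupp.single l j := by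
      intro b hb he
      ext i
      by_cases hi : i = l
      · subst hi
        rw [Finsupp.add_apply, Finsupp.single_eq_same, h, hb, zero_add]
      · rw [Finsupp.add_apply, Finsupp.single_eq_of_ne hi, add_zero, ← he,
          Finsupp.erase_ne hi]
    rw [Finset.sum_eq_single (a + Finsupp.single l j)]
    · rw [if_pos]
      ext i
      by_cases hi : i = l
      · subst hi
        rw [Finsupp.erase_same, h]
      · rw [Finsupp.erase_ne hi, Finsupp.add_apply, Finsupp.single_eq_of_ne hi, add_zero]
    · intro b hb hne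
      rw [if_neg]
      intro he
      exact hne (key b (Finset.mem_filter.mp hb).2 he)
    · intro hnot
      have hz : coeff (a + Finsupp.single l j) ψ = 0 := by
        by_contra hne
        apply hnot
        rw [Finset.mem_filter]
        refine ⟨mem_support_iff.mpr hne, ?_⟩
        rw [Finsupp.add_apply, Finsupp.single_eq_same, h, zero_add]
      rw [hz]
      split_ifs <;> rfl
  · rw [if_neg h]
    apply Finset.sum_eq_zero
    intro b hb
    rw [if_neg]
    intro he
    apply h
    rw [← he]
    exact Finsupp.erase_same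

theorem degreeOf_coefl_self {k : ℕ} (l : Fin k) (j : ℕ) (ψ : MvPolynomial (Fin k) ℤ) :
    degreeOf l (coefl l j ψ) = 0 := by
  classical
  apply Nat.le_zero.mp
  rw [degreeOf_eq_sup]
  apply Finset.sup_le
  intro a ha
  have h := mem_support_iff.mp ha
  rw [coeff_coefl] at h
  by_contra hne
  apply h
  rw [if_neg]
  intro h0
  apply hne
  rw [h0]

theorem degreeOf_coefl_le {k : ℕ} (l : Fin k) (j : ℕ) (ψ : MvPolynomial (Fin k) ℤ)
    (i : Fin k) : degreeOf i (coefl l j ψ) ≤ degreeOf i ψ := by
  classical
  rw [degreeOf_eq_sup i (coefl l j ψ)]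
  apply Finset.sup_le
  intro a ha
  have h := mem_support_iff.mp ha
  rw [coeff_coefl] at h
  have h0 : a l = 0 := by
    by_contra hne
    exact h (if_neg hne)
  rw [if_pos h0] at h
  have h1 := monomial_le_degreeOf i (mem_support_iff.mpr h)
  refine le_trans ?_ h1
  rw [Finsupp.add_apply]
  exact Nat.le_add_right _ _

theorem coefl_top_ne_zero {k : ℕ} (l : Fin k) (ψ : MvPolynomial (Fin k) ℤ) (hψ : ψ ≠ 0) :
    coefl l (degreeOf l ψ) ψ ≠ 0 := by
  classical
  have hne : ψ.support.Nonempty := support_nonempty.mpr hψ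
  obtain ⟨b, hb, hbe⟩ := Finset.exists_mem_eq_sup ψ.support hne (fun m => m l)
  have hd : degreeOf l ψ = b l := by
    rw [degreeOf_eq_sup]
    exact hbe
  intro hz
  have hc := coeff_coefl l (degreeOf l ψ) ψ (b.erase l)
  rw [if_pos Finsupp.erase_same, hz, coeff_zero] at hc
  have he : b.erase l + Finsupp.single l (degreeOf l ψ) = b := by
    rw [hd]
    exact Finsupp.erase_add_single l b
  rw [he] at hc
  exact (mem_support_iff.mp hb) hc.symm

theorem eval_update_of_degreeOf_zero {k : ℕ} (l : Fin k) (ψ : MvPolynomial (Fin k) ℤ)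
    (h : degreeOf l ψ = 0) (t : Fin k → ℤ) (c : ℤ) :
    eval (Function.update t l c) ψ = eval t ψ := by
  classical
  rw [eval_eq', eval_eq']
  apply Finset.sum_congr rfl
  intro a ha
  congr 1
  apply Finset.prod_congr rfl
  intro i _
  by_cases hi : i = l
  · subst hi
    have h1 := monomial_le_degreeOf i ha
    have h2 : a i = 0 := by omega
    rw [h2, pow_zero, pow_zero]
  · rw [Function.update_of_ne hi]

theorem cof : CofStmt := by
  intro k l ψ
  exact ⟨fun j a => coeff_coefl l j ψ a, fun j => degreeOf_coefl_self l j ψ,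
    fun j i => degreeOf_coefl_le l j ψ i, fun h => coefl_top_ne_zero l ψ h,
    fun h t c => eval_update_of_degreeOf_zero l ψ h t c⟩

end Pool.Agent.EVF.H75
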