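import Pool.Agent.Helper75_EVF.COF

/-! # EVF, row REM: a polynomial is large at one hundred percent of the box -/

set_option autoImplicit false

namespace Pool.Agent.EVF.H75

open MvPolynomial
open Pool.Agent.EVF

/-- The exceptions on one line. -/
theorem line_count (hlag : LagStmt) (hslc : SlcStmt) {k : ℕ} (W : Fin k → ℕ) (l : Fin k)
    (ψ : MvPolynomial (Fin k) ℤ) (j ω' ω : ℕ) (hω : ω = ω' + W l * j) (hW : 1 ≤ W l)
    (ε : ℝ) (hε : 0 < ε) :
    ∀ ε' : ℝ, 0 < ε' → ∃ B₀ : ℕ, ∀ B : ℕ, B₀ ≤ B → ∀ t ∈ Box W B,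
      (B : ℝ) ^ ((ω' : ℝ) - ε / 2) ≤ |((eval t (coefl l j ψ) : ℤ) : ℝ)| →
      ({c : ℤ | |c| ≤ (B : ℤ) ^ W l ∧ ¬ ((B : ℝ) ^ ((ω : ℝ) - ε) ≤
        |((eval (Function.update t l c) ψ : ℤ) : ℝ)|)}.ncard : ℝ) ≤ ε' * (B : ℝ) ^ W l := by
  intro ε' hε'
  obtain ⟨C, hC1, hC⟩ := hlag (degreeOf l ψ)
  obtain ⟨D, hD⟩ : ∃ D : ℕ, D = degreeOf l ψ := ⟨_, rfl⟩
  rw [← hD] at hC
  have hD1 : (0 : ℝ) < (D : ℝ) + 1 := by positivity
  obtain ⟨δ, hδ0, hδ1, hδ2⟩ : ∃ δ : ℝ, 0 < δ ∧ δ ≤ 1 ∧ δ ≤ ε' / (2 * ((D : ℝ) + 1)) :=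
    ⟨min 1 (ε' / (2 * ((D : ℝ) + 1))), lt_min one_pos (by positivity), min_le_left _ _,
      min_le_right _ _⟩
  have ht : Filter.Tendsto (fun B : ℕ => (B : ℝ) ^ (ε / 2)) Filter.atTop Filter.atTop :=
    (tendsto_rpow_atTop (by linarith)).comp tendsto_natCast_atTop_atTop
  have he1 := ht.eventually_gt_atTop (C / δ ^ D)
  have he2 : ∀ᶠ B : ℕ in Filter.atTop, 2 * ((D : ℝ) + 1) / ε' ≤ (B : ℝ) :=
    tendsto_natCast_atTop_atTop.eventually_ge_atTop _
  have he3 : ∀ᶠ B : ℕ in Filter.atTop, 1 ≤ B := Filter.eventually_ge_atTop 1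
  obtain ⟨B₀, hB₀⟩ := Filter.eventually_atTop.mp (he1.and (he2.and he3))
  refine ⟨B₀, fun B hB t htb hG => ?_⟩
  obtain ⟨hb1, hb2, hb3⟩ := hB₀ B hB
  obtain ⟨hev, hco, hdeg, -⟩ := hslc k l t ψ
  have hBpos : (0 : ℝ) < (B : ℝ) := by exact_mod_cast hb3
  have hB1 : (1 : ℝ) ≤ (B : ℝ) := by exact_mod_cast hb3
  have hT : 1 ≤ B ^ W l := Nat.one_le_pow _ _ hb3
  have hmain : C * (B : ℝ) ^ ((ω : ℝ) - ε) <
      |(((slice l t ψ).coeff j : ℤ) : ℝ)| * ((B ^ W l : ℕ) : ℝ) ^ j * δ ^ D := by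
    rw [hco]
    have hδD : 0 < δ ^ D := pow_pos hδ0 D
    have e1 : C < (B : ℝ) ^ (ε / 2) * δ ^ D := (div_lt_iff₀ hδD).mp hb1
    have e2 : (B : ℝ) ^ ((ω' : ℝ) - ε / 2) * ((B ^ W l : ℕ) : ℝ) ^ j =
        (B : ℝ) ^ ((ω : ℝ) - ε) * (B : ℝ) ^ (ε / 2) := by
      have e3 : (((B ^ W l : ℕ) : ℝ)) ^ j = (B : ℝ) ^ (((W l * j : ℕ) : ℝ)) := by
        rw [Real.rpow_natCast, pow_mul]
        push_cast
        rfl
      rw [e3, ← Real.rpow_add hBpos, ← Real.rpow_add hBpos]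
      congr 1
      rw [hω]
      push_cast
      ring
    calc C * (B : ℝ) ^ ((ω : ℝ) - ε)
        < ((B : ℝ) ^ (ε / 2) * δ ^ D) * (B : ℝ) ^ ((ω : ℝ) - ε) :=
          mul_lt_mul_of_pos_right e1 (Real.rpow_pos_of_pos hBpos _)
      _ = ((B : ℝ) ^ ((ω : ℝ) - ε) * (B : ℝ) ^ (ε / 2)) * δ ^ D := by ring
      _ = ((B : ℝ) ^ ((ω' : ℝ) - ε / 2) * ((B ^ W l : ℕ) : ℝ) ^ j) * δ ^ D := by rw [e2]
      _ ≤ (|((eval t (coefl l j ψ) : ℤ) : ℝ)| * ((B ^ W l : ℕ) : ℝ) ^ j) * δ ^ D := by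
          apply mul_le_mul_of_nonneg_right _ hδD.le
          exact mul_le_mul_of_nonneg_right hG (by positivity)
  have hlagc := hC (slice l t ψ) (by rw [hD]; exact hdeg) (B ^ W l) j δ
    ((B : ℝ) ^ ((ω : ℝ) - ε)) hT hδ0 hδ1 (Real.rpow_nonneg hBpos.le _) hmain
  refine le_trans ?_ (le_trans hlagc ?_)
  · have hfin : {c : ℤ | |c| ≤ ((B ^ W l : ℕ) : ℤ) ∧
        |(((slice l t ψ).eval c : ℤ) : ℝ)| ≤ (B : ℝ) ^ ((ω : ℝ) - ε)}.Finite := by
      apply Set.Finite.subset (Set.finite_Icc (-((B ^ W l : ℕ) : ℤ)) ((B ^ W l : ℕ) : ℤ))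
      intro c hc
      exact abs_le.mp hc.1
    have hsub : {c : ℤ | |c| ≤ (B : ℤ) ^ W l ∧ ¬ ((B : ℝ) ^ ((ω : ℝ) - ε) ≤
        |((eval (Function.update t l c) ψ : ℤ) : ℝ)|)} ⊆
        {c : ℤ | |c| ≤ ((B ^ W l : ℕ) : ℤ) ∧
        |(((slice l t ψ).eval c : ℤ) : ℝ)| ≤ (B : ℝ) ^ ((ω : ℝ) - ε)} := by
      intro c hc
      refine ⟨?_, ?_⟩
      · push_cast
        exact hc.1
      · rw [hev]
        exact (not_le.mp hc.2).le
    exact_mod_cast Set.ncard_le_ncard hsub hfin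
  · have hTB : (B : ℝ) ≤ (B : ℝ) ^ W l := by
      calc (B : ℝ) = (B : ℝ) ^ 1 := (pow_one _).symm
        _ ≤ (B : ℝ) ^ W l := pow_le_pow_right₀ hB1 hW
    have hcast : ((B ^ W l : ℕ) : ℝ) = (B : ℝ) ^ W l := by push_cast; rfl
    rw [hcast]
    have f1 : ((D : ℝ) + 1) * δ ≤ ε' / 2 := by
      calc ((D : ℝ) + 1) * δ ≤ ((D : ℝ) + 1) * (ε' / (2 * ((D : ℝ) + 1))) :=
            mul_le_mul_of_nonneg_left hδ2 hD1.le
        _ = ε' / 2 := by field_simp
    have f2 : (D : ℝ) + 1 ≤ ε' / 2 * (B : ℝ) ^ W l := by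
      have f3 : 2 * ((D : ℝ) + 1) / ε' ≤ (B : ℝ) ^ W l := le_trans hb2 hTB
      rw [div_le_iff₀ hε'] at f3
      linarith
    have hp : (0 : ℝ) ≤ (B : ℝ) ^ W l := by positivity
    calc ((D : ℝ) + 1) * (δ * (B : ℝ) ^ W l + 1)
        = (((D : ℝ) + 1) * δ) * (B : ℝ) ^ W l + ((D : ℝ) + 1) := by ring
      _ ≤ ε' / 2 * (B : ℝ) ^ W l + ε' / 2 * (B : ℝ) ^ W l :=
          add_le_add (mul_le_mul_of_nonneg_right f1 hp) f2
      _ = ε' * (B : ℝ) ^ W l := by ring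

/-- The induction. -/
theorem rem_aux (hsli : SliStmt) (hlag : LagStmt) (hslc : SlcStmt) {k : ℕ} (W : Fin k → ℕ)
    (hW : ∀ i, 1 ≤ W i) : ∀ (n : ℕ) (ψ : MvPolynomial (Fin k) ℤ) (a : Fin k →₀ ℕ) (ε : ℝ),
      (Finset.univ.filter (fun i => degreeOf i ψ ≠ 0)).card = n → a ∈ ψ.support → 0 < ε →
      AlmostAll W (fun B t =>
        (B : ℝ) ^ (((∑ l, W l * a l : ℕ) : ℝ) - ε) ≤ |((eval t ψ : ℤ) : ℝ)|) := by
  intro n
  induction n using Nat.strong_induction_on with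
  | _ n ih =>
    intro ψ a ε hn ha hε
    by_cases hall : ∀ i, degreeOf i ψ = 0
    · -- a nonzero constant
      have hz : ∀ b ∈ ψ.support, b = 0 := by
        intro b hb
        ext i
        have h1 := monomial_le_degreeOf i hb
        rw [hall i] at h1
        simpa using h1
      have ha0 : a = 0 := hz a ha
      have hev : ∀ t : Fin k → ℤ, eval t ψ = coeff 0 ψ := by
        intro t
        rw [eval_eq']
        rw [Finset.sum_eq_single (0 : Fin k →₀ ℕ)]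
        · simp
        · intro b hb hb0
          exact absurd (hz b hb) hb0
        · intro h0
          rw [notMem_support_iff.mp h0, zero_mul]
      intro ε' hε'
      refine ⟨1, fun B hB => ?_⟩
      have hempty : {t : Fin k → ℤ | t ∈ Box W B ∧ ¬ ((B : ℝ) ^ (((∑ l, W l * a l : ℕ) : ℝ) - ε) ≤
          |((eval t ψ : ℤ) : ℝ)|)} = ∅ := by
        apply Set.eq_empty_of_forall_notMem
        rintro t ⟨-, ht⟩
        apply ht
        rw [hev t]
        have hc : coeff 0 ψ ≠ 0 := by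
          rw [← ha0]
          exact mem_support_iff.mp ha
        have h1 : (1 : ℝ) ≤ |((coeff 0 ψ : ℤ) : ℝ)| := by
          rw [← Int.cast_abs]
          exact_mod_cast Int.one_le_abs hc
        refine le_trans ?_ h1
        have hB1 : (1 : ℝ) ≤ (B : ℝ) := by exact_mod_cast hB
        apply Real.rpow_le_one_of_one_le_of_nonpos hB1
        rw [ha0]
        simp only [Finsupp.coe_zero, Pi.zero_apply, mul_zero, Finset.sum_const_zero,
          Nat.cast_zero]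
        linarith
      rw [hempty, Set.ncard_empty, Nat.cast_zero]
      positivity
    · push Not at hall
      obtain ⟨l, hl⟩ := hall
      have ha' : a.erase l ∈ (coefl l (a l) ψ).support := by
        rw [mem_support_iff, coeff_coefl, if_pos Finsupp.erase_same]
        rw [Finsupp.erase_add_single]
        exact mem_support_iff.mp ha
      have hlt : (Finset.univ.filter (fun i => degreeOf i (coefl l (a l) ψ) ≠ 0)).card < n := by
        rw [← hn]
        apply Finset.card_lt_card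
        rw [Finset.ssubset_iff_of_subset]
        · refine ⟨l, ?_, ?_⟩
          · rw [Finset.mem_filter]
            exact ⟨Finset.mem_univ _, hl⟩
          · rw [Finset.mem_filter]
            rintro ⟨-, h⟩
            exact h (degreeOf_coefl_self l (a l) ψ)
        · intro i hi
          rw [Finset.mem_filter] at hi ⊢
          refine ⟨Finset.mem_univ _, fun h0 => hi.2 ?_⟩
          have := degreeOf_coefl_le l (a l) ψ i
          omega
      have hIH := ih _ hlt (coefl l (a l) ψ) (a.erase l) (ε / 2) rfl ha' (by linarith)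
      have hsum : (∑ i, W i * a i) = (∑ i, W i * (a.erase l) i) + W l * a l := by
        rw [← Finset.add_sum_erase Finset.univ (fun i => W i * a i) (Finset.mem_univ l)]
        rw [← Finset.add_sum_erase Finset.univ (fun i => W i * (a.erase l) i)
          (Finset.mem_univ l)]
        rw [Finsupp.erase_same, mul_zero, zero_add, add_comm]
        congr 1
        apply Finset.sum_congr rfl
        intro i hi
        rw [Finsupp.erase_ne (Finset.ne_of_mem_erase hi)]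
      exact hsli k W l _ _ hIH
        (line_count hlag hslc W l ψ (a l) (∑ i, W i * (a.erase l) i) (∑ i, W i * a i) hsum (hW l)
          ε hε)

theorem rem (hsli : SliStmt) (hlag : LagStmt) (hslc : SlcStmt) : RemStmt := by
  intro k W ψ a ε hW ha hε
  exact rem_aux hsli hlag hslc W hW _ ψ a ε rfl ha hε

end Pool.Agent.EVF.H75
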